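import Pool.Agent.H174.GP.StH
import Pool.Agent.H21.GP174.clt

/-! GP cltg: central limit theorem for the block sequence, closed sets. The proof uses the vectors
and the convergence proved by helper21. -/

set_option autoImplicit false

open MeasureTheory ProbabilityTheory Finset Filter Topology

namespace Pool.Agent.H224.GP174

open Pool.Agent.H174.GP Pool.Agent.H21.GP174

/-- the sequence with the coordinates `v` at `1, ..., n` and `0` elsewhere -/
noncomputable def extv (n : ℕ) (v : EuclideanSpace ℝ (Fin n)) : ℕ → ℝ :=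
  fun j => if h : 1 ≤ j ∧ j ≤ n then v ⟨j - 1, by omega⟩ else 0

lemma extv_cont (n : ℕ) : Continuous (extv n) := by
  refine continuous_pi fun j => ?_
  unfold extv
  by_cases h : 1 ≤ j ∧ j ≤ n
  · simp only [dif_pos h]
    fun_prop
  · simp only [dif_neg h]
    exact continuous_const

lemma extv_eq (n : ℕ) (y : ℕ → ℝ) {j : ℕ} (hj : j ∈ Finset.Icc 1 n) :
    extv n (WithLp.toLp 2 (fun i : Fin n => y (i + 1))) j = y j := by
  have h : 1 ≤ j ∧ j ≤ n := Finset.mem_Icc.1 hj
  unfold extv
  rw [dif_pos h]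
  change y (j - 1 + 1) = y j
  rw [Nat.sub_add_cancel h.1]

lemma mem_iff {n : ℕ} {F : Set (ℕ → ℝ)} (hF : DepOn (Finset.Icc 1 n) F) (y : ℕ → ℝ) :
    extv n (WithLp.toLp 2 (fun i : Fin n => y (i + 1))) ∈ F ↔ y ∈ F := by
  constructor
  · exact hF _ _ fun j hj => extv_eq n y hj
  · exact hF _ _ fun j hj => (extv_eq n y hj).symm

theorem gp_cltg (_h1 : S_L3) : Pool.Agent.H174.GP.S_cltg := by
  intro n F η hF hdep hη
  have hFc : IsClosed (extv n ⁻¹' F) := hF.preimage (extv_cont n)
  have t1 := ProbabilityMeasure.limsup_measure_closed_le_of_tendsto (tend n) hFc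
  have hη' : (0 : ENNReal) < ENNReal.ofReal η := ENNReal.ofReal_pos.mpr hη
  have e1 : ∀ᶠ K : ℕ in atTop, ((PK n K : Measure _) (extv n ⁻¹' F)) <
      (PG n : Measure _) (extv n ⁻¹' F) + ENNReal.ofReal η := by
    refine eventually_lt_of_limsup_lt (lt_of_le_of_lt t1 ?_)
    exact ENNReal.lt_add_right (measure_ne_top _ _) hη'.ne'
  obtain ⟨K0, hK0⟩ := eventually_atTop.1 e1
  refine ⟨K0, fun K hK => ?_⟩
  have hK1 := hK0 K hK
  have pF : (PK n K : Measure _) (extv n ⁻¹' F) = PP {ω | Wb K ω ∈ F} := by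
    change (PP.map (TK n K)) (extv n ⁻¹' F) = _
    rw [Measure.map_apply (meas_TK n K) hFc.measurableSet]
    congr 1
    ext ω
    exact mem_iff hdep (Wb K ω)
  have gF : (PG n : Measure _) (extv n ⁻¹' F) = GA F := by
    change (GA.map (TG n)) (extv n ⁻¹' F) = _
    rw [Measure.map_apply (meas_TG n) hFc.measurableSet]
    congr 1
    ext z
    exact mem_iff hdep z
  rw [pF, gF] at hK1
  have h := ENNReal.toReal_mono (ENNReal.add_ne_top.mpr ⟨measure_ne_top _ _,
    ENNReal.ofReal_ne_top⟩) hK1.le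
  rw [ENNReal.toReal_add (measure_ne_top _ _) ENNReal.ofReal_ne_top,
    ENNReal.toReal_ofReal hη.le] at h
  exact h

end Pool.Agent.H224.GP174
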